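import Pool.Agent.N889.AO.Stm

/-!
# Project AO, job EXT: extension of coherent matrices to derivations of the graph algebra
-/

set_option autoImplicit false
set_option linter.all false

open Matrix

namespace Pool.Agent.N935.AO.Ext

open Pool.Agent.N889.AO

variable {n : ℕ} (G : SimpleGraph (Fin n))

section ring
variable {R : Type} [CommRing R]

/-- restriction of a matrix to the edges -/
def res (A : Matrix (Fin n) (Fin n) R) : G.edgeSet → R := fun f => A f.1.inf f.1.sup

theorem res_apply (A : Matrix (Fin n) (Fin n) R) {i j : Fin n} (h : G.Adj i j) (hij : i < j) :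
    res G A ⟨s(i, j), G.mem_edgeSet.mpr h⟩ = A i j := by
  unfold res
  show A (s(i, j) : Sym2 (Fin n)).inf (s(i, j) : Sym2 (Fin n)).sup = A i j
  rw [Sym2.inf_mk, Sym2.sup_mk, inf_eq_left.mpr hij.le, sup_eq_right.mpr hij.le]

theorem res_add (A B : Matrix (Fin n) (Fin n) R) : res G (A + B) = res G A + res G B := rfl
theorem res_sub (A B : Matrix (Fin n) (Fin n) R) : res G (A - B) = res G A - res G B := rfl
theorem res_smul (c : R) (A : Matrix (Fin n) (Fin n) R) : res G (c • A) = c • res G A := rfl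

theorem res_zero {A : Matrix (Fin n) (Fin n) R} (h : ∀ i j, G.Adj i j → A i j = 0) :
    res G A = 0 := by
  funext f
  obtain ⟨i, j, hij, hlt, rfl⟩ := edge_cases G f
  rw [res_apply G A hij hlt, h i j hij]
  rfl

open Classical in
/-- the upper triangular matrix of a function on the edges -/
noncomputable def up (w : G.edgeSet → R) : Matrix (Fin n) (Fin n) R := fun i j =>
  if h : G.Adj i j ∧ i < j then w ⟨s(i, j), G.mem_edgeSet.mpr h.1⟩ else 0

/-- the alternating matrix of a function on the edges -/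
noncomputable def hat (w : G.edgeSet → R) : Matrix (Fin n) (Fin n) R := up G w - (up G w)ᵀ

theorem hat_pos (w : G.edgeSet → R) {i j : Fin n} (h : G.Adj i j) (hij : i < j) :
    hat G w i j = w ⟨s(i, j), G.mem_edgeSet.mpr h⟩ := by
  show up G w i j - up G w j i = _
  unfold up
  rw [dif_pos ⟨h, hij⟩, dif_neg (fun hh => lt_asymm hij hh.2), sub_zero]

theorem hat_neg (w : G.edgeSet → R) {i j : Fin n} (h : G.Adj i j) (hij : i < j) :
    hat G w j i = -w ⟨s(i, j), G.mem_edgeSet.mpr h⟩ := by
  show up G w j i - up G w i j = _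
  unfold up
  rw [dif_neg (fun hh => lt_asymm hij hh.2), dif_pos ⟨h, hij⟩, zero_sub]

theorem hat_non (w : G.edgeSet → R) {i j : Fin n} (h : ¬ G.Adj i j) : hat G w i j = 0 := by
  show up G w i j - up G w j i = _
  unfold up
  rw [dif_neg (fun hh => h hh.1), dif_neg (fun hh => h hh.1.symm), sub_zero]

theorem hat_add (v w : G.edgeSet → R) : hat G (v + w) = hat G v + hat G w := by
  ext i j
  show up G (v + w) i j - up G (v + w) j i = (up G v i j - up G v j i) + (up G w i j - up G w j i)
  unfold up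
  split_ifs <;> simp <;> ring

theorem hat_smul (c : R) (w : G.edgeSet → R) : hat G (c • w) = c • hat G w := by
  ext i j
  show up G (c • w) i j - up G (c • w) j i = c * (up G w i j - up G w j i)
  unfold up
  split_ifs <;> simp [mul_sub]

theorem res_hat (w : G.edgeSet → R) : res G (hat G w) = w := by
  funext f
  obtain ⟨i, j, hij, hlt, rfl⟩ := edge_cases G f
  rw [res_apply G _ hij hlt, hat_pos G w hij hlt]

/-- the difference is supported on the nonadjacent pairs -/
theorem supp (C : Matrix (Fin n) (Fin n) R) (i j : Fin n)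
    (h : ((C - Cᵀ) - hat G (res G (C - Cᵀ))) i j ≠ 0) : i ≠ j ∧ ¬ G.Adj i j := by
  constructor
  · rintro rfl
    apply h
    rw [Matrix.sub_apply, hat_non G _ (G.loopless.irrefl i), sub_zero, Matrix.sub_apply,
      Matrix.transpose_apply, sub_self]
  · intro hij
    apply h
    rcases lt_or_gt_of_ne hij.ne with h1 | h1
    · rw [Matrix.sub_apply, hat_pos G _ hij h1, res_apply G _ hij h1, sub_self]
    · rw [Matrix.sub_apply, hat_neg G _ hij.symm h1, res_apply G _ hij.symm h1]
      simp only [Matrix.sub_apply, Matrix.transpose_apply]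
      ring

theorem nonadj1 {Y B : Matrix (Fin n) (Fin n) R} (hY : ∀ a b, Y b a ≠ 0 → Coh G a b)
    (hB : ∀ i j, B i j ≠ 0 → i ≠ j ∧ ¬ G.Adj i j) (i j : Fin n) (hij : G.Adj i j) :
    (Y * B + B * Yᵀ) i j = 0 := by
  rw [Matrix.add_apply, Matrix.mul_apply, Matrix.mul_apply]
  have e1 : ∀ a, Y i a * B a j = 0 := by
    intro a
    by_contra hne
    have h1 := hY a i (left_ne_zero_of_mul hne)
    obtain ⟨h2, h3⟩ := hB a j (right_ne_zero_of_mul hne)
    exact h3 ((h1 j h2.symm hij.ne.symm).mpr hij)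
  have e2 : ∀ a, B i a * Yᵀ a j = 0 := by
    intro a
    by_contra hne
    have h1 := hY a j (right_ne_zero_of_mul hne)
    obtain ⟨h2, h3⟩ := hB i a (left_ne_zero_of_mul hne)
    exact h3 ((h1 i h2 hij.ne).mpr hij.symm).symm
  rw [Finset.sum_eq_zero fun a _ => e1 a, Finset.sum_eq_zero fun a _ => e2 a, add_zero]

theorem nonadj2 {Q B : Matrix (Fin n) (Fin n) R} (hQ : ∀ a b, Q b a ≠ 0 → Coh G a b)
    (hB : ∀ i j, B i j ≠ 0 → i ≠ j ∧ ¬ G.Adj i j) (i j : Fin n) (hij : G.Adj i j) :
    (Q * B * Qᵀ) i j = 0 := by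
  rw [Matrix.mul_apply]
  refine Finset.sum_eq_zero fun c _ => ?_
  rw [Matrix.mul_apply, Finset.sum_mul]
  refine Finset.sum_eq_zero fun a _ => ?_
  by_contra hne
  have h0 := left_ne_zero_of_mul hne
  have hai := hQ a i (left_ne_zero_of_mul h0)
  obtain ⟨hac, hnac⟩ := hB a c (right_ne_zero_of_mul h0)
  have hcj : Coh G c j := hQ c j (right_ne_zero_of_mul hne)
  by_cases h1 : j = a
  · subst h1
    -- `i`, `j` adjacent and coherent
    exact hnac (Coh.adj_of_adj hij hai.symm hcj.symm hac)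
  · -- `a`, `j` adjacent
    have haj : G.Adj a j := by
      by_cases h2 : a = i
      · rw [h2]; exact hij
      · exact (hai j h1 hij.ne.symm).mpr hij
    exact hnac ((hcj a hac (Ne.symm h1)).mpr haj.symm).symm

theorem res1 {Y : Matrix (Fin n) (Fin n) R} (hY : ∀ a b, Y b a ≠ 0 → Coh G a b)
    (C : Matrix (Fin n) (Fin n) R) :
    res G (Y * hat G (res G (C - Cᵀ)) + hat G (res G (C - Cᵀ)) * Yᵀ) =
      res G (Y * (C - Cᵀ) + (C - Cᵀ) * Yᵀ) := by
  have h := res_zero G (nonadj1 G hY (supp G C))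
  generalize C - Cᵀ = A at h ⊢
  generalize hat G (res G A) = H at h ⊢
  have e : Y * A + A * Yᵀ = (Y * (A - H) + (A - H) * Yᵀ) + (Y * H + H * Yᵀ) := by
    rw [Matrix.mul_sub, Matrix.sub_mul]
    abel
  calc res G (Y * H + H * Yᵀ) = 0 + res G (Y * H + H * Yᵀ) := (zero_add _).symm
    _ = res G (Y * (A - H) + (A - H) * Yᵀ) + res G (Y * H + H * Yᵀ) := by rw [h]
    _ = res G ((Y * (A - H) + (A - H) * Yᵀ) + (Y * H + H * Yᵀ)) := rfl
    _ = res G (Y * A + A * Yᵀ) := by rw [← e]

theorem res2 {Q : Matrix (Fin n) (Fin n) R} (hQ : ∀ a b, Q b a ≠ 0 → Coh G a b)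
    (C : Matrix (Fin n) (Fin n) R) :
    res G (Q * hat G (res G (C - Cᵀ)) * Qᵀ) = res G (Q * (C - Cᵀ) * Qᵀ) := by
  have h := res_zero G (nonadj2 G hQ (supp G C))
  generalize C - Cᵀ = A at h ⊢
  generalize hat G (res G A) = H at h ⊢
  have e : Q * A * Qᵀ = Q * (A - H) * Qᵀ + Q * H * Qᵀ := by
    rw [Matrix.mul_sub, Matrix.sub_mul]
    abel
  calc res G (Q * H * Qᵀ) = 0 + res G (Q * H * Qᵀ) := (zero_add _).symm
    _ = res G (Q * (A - H) * Qᵀ) + res G (Q * H * Qᵀ) := by rw [h]
    _ = res G (Q * (A - H) * Qᵀ + Q * H * Qᵀ) := rfl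
    _ = res G (Q * A * Qᵀ) := by rw [← e]

/-- the product -/
theorem mulc_eq [Fintype G.edgeSet] (X Z : Fin n ⊕ G.edgeSet → R) :
    mulc (cG G) R X Z = Sum.elim (0 : Fin n → R) (res G (vecMulVec (X ∘ Sum.inl) (Z ∘ Sum.inl) -
      (vecMulVec (X ∘ Sum.inl) (Z ∘ Sum.inl))ᵀ)) := by
  funext k
  rcases k with k | e
  · rw [mulc_cG_inl]; rfl
  · obtain ⟨i, j, hij, hlt, rfl⟩ := edge_cases G e
    rw [mulc_cG_inr G R X Z i j hij hlt]
    rw [Sum.elim_inr, res_apply G _ hij hlt, Matrix.sub_apply, Matrix.transpose_apply,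
      vecMulVec_apply, vecMulVec_apply]
    rfl

/-- the derivation on the edges -/
noncomputable def dw (Y : Matrix (Fin n) (Fin n) R) : (G.edgeSet → R) →ₗ[R] (G.edgeSet → R) where
  toFun w := res G (Y * hat G w + hat G w * Yᵀ)
  map_add' v w := by
    rw [hat_add, Matrix.mul_add, Matrix.add_mul, ← res_add]
    congr 1
    abel
  map_smul' c w := by
    rw [hat_smul, Matrix.mul_smul, Matrix.smul_mul, ← smul_add, res_smul]
    rfl

theorem dw_apply (Y : Matrix (Fin n) (Fin n) R) (w : G.edgeSet → R) :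
    dw G Y w = res G (Y * hat G w + hat G w * Yᵀ) := rfl

/-- the automorphism on the edges -/
noncomputable def qw (Q : Matrix (Fin n) (Fin n) R) : (G.edgeSet → R) →ₗ[R] (G.edgeSet → R) where
  toFun w := res G (Q * hat G w * Qᵀ)
  map_add' v w := by
    rw [hat_add, Matrix.mul_add, Matrix.add_mul, ← res_add]
  map_smul' c w := by
    rw [hat_smul, Matrix.mul_smul, Matrix.smul_mul, res_smul]
    rfl

theorem qw_apply (Q : Matrix (Fin n) (Fin n) R) (w : G.edgeSet → R) :
    qw G Q w = res G (Q * hat G w * Qᵀ) := rfl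

theorem qw_surj {Q Q' : Matrix (Fin n) (Fin n) R} (hQ : ∀ a b, Q b a ≠ 0 → Coh G a b)
    (h : Q * Q' = 1) : Function.Surjective (qw G Q) := by
  intro w
  refine ⟨res G (Q' * hat G w * Q'ᵀ), ?_⟩
  have e : Q' * hat G w * Q'ᵀ = (Q' * up G w * Q'ᵀ) - (Q' * up G w * Q'ᵀ)ᵀ := by
    unfold hat
    rw [Matrix.mul_sub, Matrix.sub_mul, Matrix.transpose_mul, Matrix.transpose_mul,
      Matrix.transpose_transpose, Matrix.mul_assoc Q' (up G w)ᵀ]
  rw [qw_apply, e, res2 G hQ, ← e]
  have h' : Q'ᵀ * Qᵀ = 1 := by rw [← Matrix.transpose_mul, h, Matrix.transpose_one]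
  have e2 : Q * (Q' * hat G w * Q'ᵀ) * Qᵀ = hat G w := by
    calc Q * (Q' * hat G w * Q'ᵀ) * Qᵀ = (Q * Q') * hat G w * (Q'ᵀ * Qᵀ) := by
          simp only [Matrix.mul_assoc]
      _ = hat G w := by rw [h, h', Matrix.one_mul, Matrix.mul_one]
  rw [e2, res_hat]

end ring

theorem hat_map {R R' : Type} [CommRing R] [CommRing R'] (φ : R →+* R') (w : G.edgeSet → R) :
    (hat G w).map φ = hat G (fun f => φ (w f)) := by
  ext i j
  rw [Matrix.map_apply]
  unfold hat
  simp only [Matrix.sub_apply, Matrix.transpose_apply, map_sub]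
  unfold up
  split_ifs <;> simp

theorem dw_map {R R' : Type} [CommRing R] [CommRing R'] (φ : R →+* R')
    (Y : Matrix (Fin n) (Fin n) R) (w : G.edgeSet → R) :
    (fun f => φ (dw G Y w f)) = dw G (Y.map φ) (fun f => φ (w f)) := by
  rw [dw_apply G Y w, dw_apply G (Y.map φ), ← hat_map G φ w, ← Matrix.transpose_map,
    ← Matrix.map_mul, ← Matrix.map_mul]
  funext f
  show φ ((Y * hat G w + hat G w * Yᵀ) _ _) = _
  rw [Matrix.add_apply, map_add]
  rfl

theorem stmExt : StmExt := by
  classical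
  intro n G _ F K _ _ _ Y Q e hY hQ hdet hQY
  let D : Matrix (Fin n ⊕ G.edgeSet) (Fin n ⊕ G.edgeSet) F :=
    Matrix.fromBlocks Y 0 0 (LinearMap.toMatrix' (dw G Y))
  have hD : ∀ x : Fin n ⊕ G.edgeSet → F,
      D *ᵥ x = Sum.elim (Y *ᵥ (x ∘ Sum.inl)) (dw G Y (x ∘ Sum.inr)) := by
    intro x
    show Matrix.fromBlocks Y 0 0 (LinearMap.toMatrix' (dw G Y)) *ᵥ x = _
    rw [Matrix.fromBlocks_mulVec]
    congr 1
    · rw [Matrix.zero_mulVec, add_zero]
    · rw [Matrix.zero_mulVec, zero_add, LinearMap.toMatrix'_mulVec]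
  refine ⟨D, ?_, ?_⟩
  · intro x z
    rw [hD x, hD z, mulc_eq, hD, mulc_eq, mulc_eq]
    funext k
    rcases k with k | f
    · show (Y *ᵥ ((Sum.elim 0 _ : Fin n ⊕ G.edgeSet → F) ∘ Sum.inl)) k = 0 + 0
      have : ((Sum.elim (0 : Fin n → F) (res G (vecMulVec (x ∘ Sum.inl) (z ∘ Sum.inl) -
          (vecMulVec (x ∘ Sum.inl) (z ∘ Sum.inl))ᵀ)) : Fin n ⊕ G.edgeSet → F) ∘ Sum.inl) = 0 := rfl
      rw [this, Matrix.mulVec_zero]
      simp
    · set x' := x ∘ Sum.inl with hx'
      set z' := z ∘ Sum.inl with hz'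
      show dw G Y (res G (vecMulVec x' z' - (vecMulVec x' z')ᵀ)) f =
        res G (vecMulVec (Y *ᵥ x') z' - (vecMulVec (Y *ᵥ x') z')ᵀ) f +
        res G (vecMulVec x' (Y *ᵥ z') - (vecMulVec x' (Y *ᵥ z'))ᵀ) f
      rw [dw_apply, res1 G hY]
      have e0 : Y * (vecMulVec x' z' - (vecMulVec x' z')ᵀ) +
          (vecMulVec x' z' - (vecMulVec x' z')ᵀ) * Yᵀ =
          (vecMulVec (Y *ᵥ x') z' - (vecMulVec (Y *ᵥ x') z')ᵀ) +
          (vecMulVec x' (Y *ᵥ z') - (vecMulVec x' (Y *ᵥ z'))ᵀ) := by
        rw [Matrix.mul_sub, Matrix.sub_mul]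
        simp only [Matrix.transpose_vecMulVec, Matrix.mul_vecMulVec, Matrix.vecMulVec_mul,
          Matrix.vecMul_transpose]
        abel
      rw [e0]
      rfl
  · intro r hr
    rw [Polynomial.IsRoot.def, Matrix.eval_charpoly, ← Matrix.exists_mulVec_eq_zero_iff] at hr
    obtain ⟨x, hx0, hx⟩ := hr
    rw [Matrix.sub_mulVec, sub_eq_zero] at hx
    have hx' : D *ᵥ x = r • x := by
      rw [← hx]
      ext k
      simp [Matrix.scalar_apply, Matrix.mulVec_diagonal]
    rw [hD] at hx'
    set φ := algebraMap F K with hφ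
    have hφi : Function.Injective φ := φ.injective
    by_cases hv : x ∘ Sum.inl = 0
    · right
      -- the part on the edges
      have hw0 : x ∘ Sum.inr ≠ 0 := by
        intro hw
        apply hx0
        funext k
        rcases k with k | k
        · exact congrFun hv k
        · exact congrFun hw k
      have h1 : dw G Y (x ∘ Sum.inr) = r • (x ∘ Sum.inr) := by
        funext f
        exact congrFun hx' (Sum.inr f)
      set w := x ∘ Sum.inr with hwdef
      set w' : G.edgeSet → K := fun f => φ (w f) with hw'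
      have hw'0 : w' ≠ 0 := by
        intro h
        apply hw0
        funext f
        apply hφi
        rw [show φ (w f) = w' f from rfl, h]
        simp
      have h2 : dw G (Y.map φ) w' = φ r • w' := by
        rw [← dw_map]
        funext f
        rw [h1]
        simp [hw']
      have hQ' : Q * Q⁻¹ = 1 := Matrix.mul_nonsing_inv Q hdet
      have hinj : Function.Injective (qw G Q) :=
        LinearMap.injective_iff_surjective.mpr (qw_surj G hQ hQ')
      have hy0 : qw G Q w' ≠ 0 := by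
        intro h
        exact hw'0 (hinj (by rw [h, map_zero]))
      -- the commutation
      have h3 : qw G Q (dw G (Y.map φ) w') =
          res G (Matrix.diagonal e * (Q * hat G w' * Qᵀ) +
            (Q * hat G w' * Qᵀ) * Matrix.diagonal e) := by
        rw [qw_apply, dw_apply]
        have e1 : Y.map φ * hat G w' + hat G w' * (Y.map φ)ᵀ =
            (Y.map φ * up G w' + up G w' * (Y.map φ)ᵀ) -
            (Y.map φ * up G w' + up G w' * (Y.map φ)ᵀ)ᵀ := by
          unfold hat
          rw [Matrix.mul_sub, Matrix.sub_mul, Matrix.transpose_add, Matrix.transpose_mul,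
            Matrix.transpose_mul, Matrix.transpose_transpose]
          abel
        rw [e1, res2 G hQ, ← e1]
        congr 1
        have hT : (Y.map φ)ᵀ * Qᵀ = Qᵀ * Matrix.diagonal e := by
          rw [← Matrix.transpose_mul, hQY, Matrix.transpose_mul, Matrix.diagonal_transpose]
        calc Q * (Y.map φ * hat G w' + hat G w' * (Y.map φ)ᵀ) * Qᵀ
            = (Q * Y.map φ) * hat G w' * Qᵀ + Q * hat G w' * ((Y.map φ)ᵀ * Qᵀ) := by
              rw [Matrix.mul_add, Matrix.add_mul]; simp only [Matrix.mul_assoc]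
          _ = _ := by
              rw [hQY, hT]; simp only [Matrix.mul_assoc]
      obtain ⟨f, hf⟩ := Function.ne_iff.mp hy0
      obtain ⟨i, j, hij, hlt, rfl⟩ := edge_cases G f
      refine ⟨i, j, hij, ?_⟩
      rw [h2, map_smul] at h3
      have h4 := congrFun h3 ⟨s(i, j), G.mem_edgeSet.mpr hij⟩
      rw [Pi.smul_apply, smul_eq_mul, res_apply G _ hij hlt, Matrix.add_apply,
        Matrix.diagonal_mul, Matrix.mul_diagonal] at h4
      have h5 : qw G Q w' ⟨s(i, j), G.mem_edgeSet.mpr hij⟩ = (Q * hat G w' * Qᵀ) i j :=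
        (congrFun (qw_apply G Q w') _).trans (res_apply G _ hij hlt)
      rw [h5] at h4 hf
      have h6 : (e i + e j - φ r) * (Q * hat G w' * Qᵀ) i j = 0 := by linear_combination -h4
      rcases mul_eq_zero.mp h6 with h7 | h7
      · exact sub_eq_zero.mp h7
      · exact absurd h7 hf
    · left
      set v := x ∘ Sum.inl with hvdef
      have h1 : Y *ᵥ v = r • v := by
        funext a
        exact congrFun hx' (Sum.inl a)
      set v' : Fin n → K := fun a => φ (v a) with hv'
      have hv'0 : v' ≠ 0 := by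
        intro h
        apply hv
        funext f
        apply hφi
        rw [show φ (v f) = v' f from rfl, h]
        simp
      have h2 : Y.map φ *ᵥ v' = φ r • v' := by
        funext a
        have := congrArg φ (congrFun h1 a)
        rw [RingHom.map_mulVec] at this
        rw [Pi.smul_apply, smul_eq_mul]
        rw [Pi.smul_apply, smul_eq_mul, map_mul] at this
        exact this
      have hy0 : Q *ᵥ v' ≠ 0 := by
        intro h
        apply hv'0
        have : Q⁻¹ *ᵥ (Q *ᵥ v') = 0 := by rw [h, Matrix.mulVec_zero]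
        rwa [Matrix.mulVec_mulVec, Matrix.nonsing_inv_mul Q hdet, Matrix.one_mulVec] at this
      obtain ⟨a, ha⟩ := Function.ne_iff.mp hy0
      refine ⟨a, ?_⟩
      have h3 : Q *ᵥ (Y.map φ *ᵥ v') = Matrix.diagonal e *ᵥ (Q *ᵥ v') := by
        rw [Matrix.mulVec_mulVec, hQY, ← Matrix.mulVec_mulVec]
      rw [h2, Matrix.mulVec_smul] at h3
      have h4 := congrFun h3 a
      rw [Pi.smul_apply, smul_eq_mul, Matrix.mulVec_diagonal] at h4
      have h6 : (e a - φ r) * (Q *ᵥ v') a = 0 := by linear_combination -h4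
      rcases mul_eq_zero.mp h6 with h7 | h7
      · exact sub_eq_zero.mp h7
      · exact absurd h7 ha

end Pool.Agent.N935.AO.Ext
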